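import Pool.Agent.Hhelper96.UB.AM.Fin7

/-!
Local PEPS approximation of gapped ground states in two dimensions: a finite set of translation
invariant PEPS tensors, of bond dimension `exp (C / ε)`, depending only on the
accuracy and on the region, suffices for all gapped translation invariant Hamiltonians and all large
tori.
-/

set_option autoImplicit false

open Filter Topology
open Pool.Agent.Hhelper96.PEPS

namespace Pool.Agent.Results.MP_0f69bf_mp.FiniteTensorSet

/-- For every local dimension `d` and box size `r` there is a constant `C` such that for every region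
`R` contained in an `r × r` box and every accuracy `ε ∈ (0, 1]` there are finitely many translation
invariant PEPS tensors `A 0, …, A (N - 1)`, of one bond dimension `D ≤ exp (C / ε)`,
and a size `L₀`, such that all their PEPS vectors are nonzero on all tori of size at least `L₀`, and
such that: for every `L ≥ L₀` and every Hermitian finite-range interaction `h` whose translation
invariant Hamiltonian `H_L` on the `L × L` torus has a unique ground state `ψ` with a gap `Δ > 0`,
some `A i` has, on every torus of size `L' ≥ L₀`, all its reduced density matrices on translates of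
`R` within `ε` in trace norm of those of `ψ`. -/
theorem result (d r : ℕ) (hr : 1 ≤ r) : ∃ C : ℝ,
    ∀ (R : Finset (ℤ × ℤ)) (a b : ℤ),
    (∀ p ∈ R, a ≤ p.1 ∧ p.1 < a + r ∧ b ≤ p.2 ∧ p.2 < b + r) → ∀ ε : ℝ, 0 < ε → ε ≤ 1 →
    ∃ D : ℕ, (D : ℝ) ≤ Real.exp (C / ε) ∧
      ∃ (N : ℕ) (A : Fin N → Fin d → Fin D → Fin D → Fin D → Fin D → ℂ)
      (L₀ : ℕ), (∀ i, ∀ (L : ℕ) [NeZero L], L₀ ≤ L → pepsVec L (A i) ≠ 0) ∧
      ∀ (L : ℕ) [NeZero L], L₀ ≤ L → ∀ (F : Finset (ℤ × ℤ)) (h : Matrix (F → Fin d) (F → Fin d) ℂ),
        h.IsHermitian → ∀ Δ : ℝ, 0 < Δ → ∀ ψ : (Site L → Fin d) → ℂ,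
        IsGappedGround (hamiltonian L F h) Δ ψ →
        ∃ i, ∀ (L' : ℕ) [NeZero L'], L₀ ≤ L' → ∀ (v : Site L) (v' : Site L'),
          traceNorm (reduced L R v ψ - reduced L' R v' (pepsVec L' (A i))) ≤ ε := by
  obtain ⟨C, _, hC⟩ := core_final7 d r hr
  exact ⟨C, fun R a b hR ε hε hε1 => finite_set_of hC R a b hR ε hε hε1⟩

end Pool.Agent.Results.MP_0f69bf_mp.FiniteTensorSet
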