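import Pool.Agent.Hhelper96.UB.AM.Fin7

/-!
Local PEPS approximation of ground states in two dimensions, for almost every interaction: one
translation invariant PEPS tensor for all large tori; the rate at which the ground state energy is
approximated by arbitrary PEPS, or by the free energy, controls the local approximation; polynomial
bond dimension under spectral counting.
-/

set_option autoImplicit false

open Filter Topology MeasureTheory
open Pool.Agent.Hhelper96.PEPS

namespace Pool.Agent.Results.MP_0f69bf_mp.GenericInteractions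

/-- Fix a local dimension `d`.  There are constants `C r` such that the following holds.  Let `h` be a
Hermitian finite-range interaction (possibly `0`) and `W ⊂ ℤ²` a finite window.  For Lebesgue-almost
every Hermitian `k` on `W` (`k = hermOf X`, where `X` are the real coordinates of `k`): if for all
large `L = n + 1` the translation invariant Hamiltonian `H_L = ∑_v τ_v(h) + ∑_v τ_v(k)` on the
`L × L` torus has a unique ground state `ψ n`, then

* for every region `R ⊆ W` contained in an `r × r` box and every `ε ∈ (0, 1]` there is one translation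
  invariant PEPS tensor `A`, of bond dimension `D ≤ exp (C r / ε)`, whose PEPS vector is nonzero on
  all large tori, and whose reduced density matrices on all translates of `R` are, on all large tori,
  within `ε` in trace norm of those of the ground state;
* there is `B > 0` such that for all `ε ∈ (0, 1]`: whenever on one torus of side `N ≥ B / ε ^ 2` some
  PEPS `T` with site-dependent tensors, of bond dimension `D₀`, has an energy per site within
  `ε ^ 2 / B` of the lowest one, there is a translation invariant PEPS tensor `A` of bond dimension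
  `D ≤ 32 N ^ 2 D₀ ^ 6` as above, within `ε` on all regions `R ⊆ W`;
* there is `B > 0` such that for all `ε ∈ (0, 1]` and `β ≥ 1`: whenever on one torus of side
  `N ≥ B / ε ^ 2` the free energy per site at inverse temperature `β` is within `ε ^ 2 / B` of the
  lowest energy per site, that is, `log Tr exp (-β H_N) ≤ -β E₀(N) + β (ε ^ 2 / B) N ^ 2`, there is a
  translation invariant PEPS tensor `A` as above, within `ε` on all regions `R ⊆ W`, whose bond
  dimension `D ≤ exp (B (β + log (2 / ε)))` does not depend on `N`;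
* if, for some `α` and `δ > 0` and all large `L`, the number of eigenvalues of `H_L` which are at most
  `E₀(L) + M` is at most `L ^ (α M)` for all `M ≥ L ^ (2 - δ)`, then for all `ε ∈ (0, 1]` there is a
  tensor `A` as above, within `ε` on all regions `R ⊆ W`, of polynomial bond dimension
  `D ≤ (2 / ε) ^ C'`. -/
theorem result (d : ℕ) : ∃ C : ℕ → ℝ, ∀ (F W : Finset (ℤ × ℤ))
    (h : Matrix (F → Fin d) (F → Fin d) ℂ), h.IsHermitian →
    ∀ᵐ X : (W → Fin d) → (W → Fin d) → ℝ, ∀ ψ : ∀ n : ℕ, (Site (n + 1) → Fin d) → ℂ,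
      (∀ᶠ n in atTop, ∃ Δ > 0, IsGappedGround
        (hamiltonian (n + 1) F h + hamiltonian (n + 1) W (hermOf X)) Δ (ψ n)) →
      (∀ R ⊆ W, ∀ (r : ℕ) (a b : ℤ), 1 ≤ r →
        (∀ p ∈ R, a ≤ p.1 ∧ p.1 < a + r ∧ b ≤ p.2 ∧ p.2 < b + r) →
        ∀ ε : ℝ, 0 < ε → ε ≤ 1 → ∃ D : ℕ, (D : ℝ) ≤ Real.exp (C r / ε) ∧
          ∃ A : Fin d → Fin D → Fin D → Fin D → Fin D → ℂ,
          (∀ᶠ n in atTop, pepsVec (n + 1) A ≠ 0) ∧
          ∀ᶠ n in atTop, ∀ v : Site (n + 1),
            traceNorm (reduced (n + 1) R v (ψ n) - reduced (n + 1) R v (pepsVec (n + 1) A)) ≤ ε) ∧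
      (∃ B : ℝ, 0 < B ∧ ∀ ε : ℝ, 0 < ε → ε ≤ 1 → ∀ (N D₀ : ℕ) [NeZero N], B / ε ^ 2 ≤ N →
        ∀ T : Site N → Fin d → Fin D₀ → Fin D₀ → Fin D₀ → Fin D₀ → ℂ, sitePepsVec N T ≠ 0 →
        (∀ χ : (Site N → Fin d) → ℂ, χ ≠ 0 →
          ex (hamiltonian N F h + hamiltonian N W (hermOf X)) (sitePepsVec N T) /
            sqn (sitePepsVec N T) ≤
          ex (hamiltonian N F h + hamiltonian N W (hermOf X)) χ / sqn χ +
            ε ^ 2 / B * (N : ℝ) ^ 2) →
        ∃ D : ℕ, D ≤ 32 * N ^ 2 * D₀ ^ 6 ∧ ∃ A : Fin d → Fin D → Fin D → Fin D → Fin D → ℂ,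
          (∀ᶠ n in atTop, pepsVec (n + 1) A ≠ 0) ∧
          ∀ R ⊆ W, ∀ᶠ n in atTop, ∀ v : Site (n + 1),
            traceNorm (reduced (n + 1) R v (ψ n) - reduced (n + 1) R v (pepsVec (n + 1) A)) ≤ ε) ∧
      (∃ B : ℝ, 0 < B ∧ ∀ ε : ℝ, 0 < ε → ε ≤ 1 → ∀ (N : ℕ) [NeZero N], B / ε ^ 2 ≤ N →
        ∀ β : ℝ, 1 ≤ β →
        ∀ (hH : (hamiltonian N F h + hamiltonian N W (hermOf X)).IsHermitian)
          (φ : (Site N → Fin d) → ℂ), φ ≠ 0 →
        Real.log (∑ j, Real.exp (-(β * hH.eigenvalues j))) +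
          β * (ex (hamiltonian N F h + hamiltonian N W (hermOf X)) φ / sqn φ) ≤
            β * (ε ^ 2 / B * (N : ℝ) ^ 2) →
        ∃ D : ℕ, (D : ℝ) ≤ Real.exp (B * (β + Real.log (2 / ε))) ∧
          ∃ A : Fin d → Fin D → Fin D → Fin D → Fin D → ℂ,
          (∀ᶠ n in atTop, pepsVec (n + 1) A ≠ 0) ∧
          ∀ R ⊆ W, ∀ᶠ n in atTop, ∀ v : Site (n + 1),
            traceNorm (reduced (n + 1) R v (ψ n) - reduced (n + 1) R v (pepsVec (n + 1) A)) ≤ ε) ∧
      ((∃ α δ : ℝ, 0 < δ ∧ ∀ᶠ n : ℕ in atTop, ∀ E : ℝ,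
          (hamiltonian (n + 1) F h + hamiltonian (n + 1) W (hermOf X)).mulVec (ψ n) =
            (E : ℂ) • ψ n → ∀ M : ℝ, ((n + 1 : ℕ) : ℝ) ^ (2 - δ) ≤ M →
          (eigCount (hamiltonian (n + 1) F h + hamiltonian (n + 1) W (hermOf X)) (E + M) : ℝ) ≤
            ((n + 1 : ℕ) : ℝ) ^ (α * M)) →
        ∃ C' : ℝ, ∀ ε : ℝ, 0 < ε → ε ≤ 1 →
          ∃ D : ℕ, (D : ℝ) ≤ (2 / ε) ^ C' ∧
          ∃ A : Fin d → Fin D → Fin D → Fin D → Fin D → ℂ,
          (∀ᶠ n in atTop, pepsVec (n + 1) A ≠ 0) ∧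
          ∀ R ⊆ W, ∀ᶠ n in atTop, ∀ v : Site (n + 1),
            traceNorm (reduced (n + 1) R v (ψ n) - reduced (n + 1) R v (pepsVec (n + 1) A)) ≤
              ε) :=
  generic_all7 d

end Pool.Agent.Results.MP_0f69bf_mp.GenericInteractions
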