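import Pool.Agent.Hhelper96.UB.AM.Fin8

/-!
Local PEPS approximation of gapped ground states in two dimensions, for every family whose gap is
stable: one translation invariant PEPS tensor for all large tori; the rate at which the ground state
energy is approximated by the free energy controls the local approximation; polynomial bond dimension
under spectral counting.
-/

set_option autoImplicit false

open Filter Topology
open Pool.Agent.Hhelper96.PEPS

namespace Pool.Agent.Results.MP_0f69bf_mp.StableGap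

/-- For every local dimension `d` and box size `r` there is a constant `C` such that the following
holds.  Let `h` be a Hermitian finite-range interaction on `ℤ²` with local dimension `d`, such that
for all large `L = n + 1` the translation invariant Hamiltonian `H_L` on the `L × L` torus has the
unique ground state `ψ n` with gap at least `Δ > 0`.

Let `R` be a region contained in an `r × r` box, and suppose that the gap is stable under
translation invariant perturbations supported on `R`: for every Hermitian `k` on `R` there are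
`η > 0` and `Δ' > 0` such that for all large `L` and all `s ∈ [0, η]` the Hamiltonian
`H_L + s ∑_v τ_v(k)` has a unique ground state with gap at least `Δ'`.  Then

* for every `ε ∈ (0, 1]` there is one translation invariant PEPS tensor `A`, of bond dimension
  `D ≤ exp (C / ε)`, whose PEPS vector is nonzero on all large tori, and whose reduced density
  matrices on all translates of `R` are, on all large tori, within `ε` in trace norm of those of the
  ground state;
* there is `B > 0` such that for all `ε ∈ (0, 1]` and `β ≥ 1`: whenever on one torus of side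
  `N ≥ B / ε ^ 2` the free energy per site at inverse temperature `β` is within `ε ^ 2 / B` of the
  lowest energy per site, that is, `log Tr exp (-β H_N) ≤ -β E₀(N) + β (ε ^ 2 / B) N ^ 2`, there is a
  tensor `A` as above whose bond dimension `D ≤ exp (B (β + log (2 / ε)))` does not depend on `N`;
* if, for some `α` and `δ > 0` and all large `L`, the number of eigenvalues of `H_L` which are at most
  `E₀(L) + M` is at most `L ^ (α M)` for all `M ≥ L ^ (2 - δ)`, then for all `ε ∈ (0, 1]` there is a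
  tensor `A` as above of polynomial bond dimension `D ≤ (2 / ε) ^ C'`. -/
theorem result (d r : ℕ) (hr : 1 ≤ r) : ∃ C : ℝ,
    ∀ (F : Finset (ℤ × ℤ)) (h : Matrix (F → Fin d) (F → Fin d) ℂ), h.IsHermitian →
    ∀ (Δ : ℝ), 0 < Δ → ∀ (ψ : ∀ n : ℕ, (Site (n + 1) → Fin d) → ℂ),
    (∀ᶠ n in atTop, IsGappedGround (hamiltonian (n + 1) F h) Δ (ψ n)) →
    ∀ (R : Finset (ℤ × ℤ)) (a b : ℤ),
    (∀ p ∈ R, a ≤ p.1 ∧ p.1 < a + r ∧ b ≤ p.2 ∧ p.2 < b + r) →
    (∀ k : Matrix (R → Fin d) (R → Fin d) ℂ, k.IsHermitian → ∃ η > 0, ∃ Δ' > 0,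
      ∀ᶠ n in atTop, ∀ s ∈ Set.Icc (0 : ℝ) η, ∃ φ : (Site (n + 1) → Fin d) → ℂ,
        IsGappedGround (hamiltonian (n + 1) F h + (s : ℂ) • hamiltonian (n + 1) R k) Δ' φ) →
    (∀ ε : ℝ, 0 < ε → ε ≤ 1 →
      ∃ D : ℕ, (D : ℝ) ≤ Real.exp (C / ε) ∧
        ∃ A : Fin d → Fin D → Fin D → Fin D → Fin D → ℂ,
        (∀ᶠ n in atTop, pepsVec (n + 1) A ≠ 0) ∧
        ∀ᶠ n in atTop, ∀ v : Site (n + 1),
          traceNorm (reduced (n + 1) R v (ψ n) - reduced (n + 1) R v (pepsVec (n + 1) A)) ≤ ε) ∧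
    (∃ B : ℝ, 0 < B ∧ ∀ ε : ℝ, 0 < ε → ε ≤ 1 → ∀ (N : ℕ) [NeZero N], B / ε ^ 2 ≤ N →
      ∀ β : ℝ, 1 ≤ β → ∀ (hH : (hamiltonian N F h).IsHermitian)
        (φ : (Site N → Fin d) → ℂ), φ ≠ 0 →
      Real.log (∑ j, Real.exp (-(β * hH.eigenvalues j))) +
        β * (ex (hamiltonian N F h) φ / sqn φ) ≤ β * (ε ^ 2 / B * (N : ℝ) ^ 2) →
      ∃ D : ℕ, (D : ℝ) ≤ Real.exp (B * (β + Real.log (2 / ε))) ∧
        ∃ A : Fin d → Fin D → Fin D → Fin D → Fin D → ℂ,
        (∀ᶠ n in atTop, pepsVec (n + 1) A ≠ 0) ∧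
        ∀ᶠ n in atTop, ∀ v : Site (n + 1),
          traceNorm (reduced (n + 1) R v (ψ n) - reduced (n + 1) R v (pepsVec (n + 1) A)) ≤ ε) ∧
    ((∃ α δ : ℝ, 0 < δ ∧ ∀ᶠ n : ℕ in atTop, ∀ E : ℝ,
        (hamiltonian (n + 1) F h).mulVec (ψ n) = (E : ℂ) • ψ n →
        ∀ M : ℝ, ((n + 1 : ℕ) : ℝ) ^ (2 - δ) ≤ M →
        (eigCount (hamiltonian (n + 1) F h) (E + M) : ℝ) ≤ ((n + 1 : ℕ) : ℝ) ^ (α * M)) →
      ∃ C' : ℝ, ∀ ε : ℝ, 0 < ε → ε ≤ 1 →
        ∃ D : ℕ, (D : ℝ) ≤ (2 / ε) ^ C' ∧
        ∃ A : Fin d → Fin D → Fin D → Fin D → Fin D → ℂ,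
        (∀ᶠ n in atTop, pepsVec (n + 1) A ≠ 0) ∧
        ∀ᶠ n in atTop, ∀ v : Site (n + 1),
          traceNorm (reduced (n + 1) R v (ψ n) - reduced (n + 1) R v (pepsVec (n + 1) A)) ≤
            ε) := by
  obtain ⟨C, hC⟩ := stable_all8 d r hr
  exact ⟨C, fun F h hh Δ hΔ ψ hg => (hC F h hh Δ hΔ ψ hg).1⟩

end Pool.Agent.Results.MP_0f69bf_mp.StableGap
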