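import Pool.Agent.Hhelper96.QA.Main

/-!
PEPS approximation of the ground states of weak (non-commuting) perturbations of the images of
classical Hamiltonians under translation invariant quantum cellular automata in two dimensions: Q1
and Q2 with a polynomial bond dimension, and a global PEPS of bond dimension `L ^ δ`.
-/

set_option autoImplicit false

open Filter Matrix
open Pool.Agent.Hhelper96.PEPS

namespace Pool.Agent.Results.MP_0f69bf_mp.WeakPerturbations

/-- Let `h0` be a real diagonal interaction on the finite set `F` of lattice sites (a function of the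
configurations `F → Fin d`) which satisfies the Peierls condition: on all large tori, the energy of
every configuration `x` exceeds the energy of the constant configuration `0` at least by the number
of sites `u` with `x u ≠ 0`.  Let `U` be a translation invariant quantum cellular automaton (`IsQCA`:
on all large tori `L = n + 1` the unitary `U n` is the PEPO of one tensor and
`(U n)ᴴ τ_v(V) U n = τ_v(Φ V)` for all `V` on a finite set, with `Φ V` on a finite set), and let `k0`
be a Hermitian interaction on the finite set `G` with `H_L(k0) = U n H_L(h0) (U n)ᴴ` on all large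
tori.  (For `U = 1` and `k0 = h0` this is the case of perturbations of classical Hamiltonians.)  For
every `δ > 0` there is `lam > 0` such that for every Hermitian interaction `k` on `G`, all of whose
matrix entries are within `lam` of those of `k0`:

* the Hamiltonians `H_L = ∑ τ_v(k)` have, on all large tori `L = n + 1`, a unique ground state `ψ n`
  and a gap of at least `1 / 2`;
* on all large tori some PEPS (with site-dependent tensors) of bond dimension `D ≤ L ^ δ` is within
  `L ^ (-1/δ) ‖ψ n‖` of `ψ n` in Hilbert norm;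
* for every region `R` there is `C` such that for every `ε ∈ (0, 1]` one translation invariant PEPS
  tensor `A`, independent of `L`, of bond dimension `D ≤ C ε ^ (-(4 + δ))` has a nonzero vector on all
  large tori and reduced density matrices on all translates of `R` which are, on all large tori,
  within `ε` in trace norm of those of the ground state. -/
theorem result (d : ℕ) [NeZero d] (F : Finset (ℤ × ℤ)) (h0 : (F → Fin d) → ℝ)
    (hP : ∀ᶠ n : ℕ in atTop, ∀ x : Site (n + 1) → Fin d,
      ((n + 1 : ℕ) : ℝ) ^ 2 * h0 0 + (Finset.univ.filter (fun u => x u ≠ 0)).card ≤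
        ∑ v : Site (n + 1), h0 (fun p => x (place (n + 1) v p)))
    (U : ∀ n : ℕ, Matrix (Site (n + 1) → Fin d) (Site (n + 1) → Fin d) ℂ) (hU : IsQCA U)
    (G : Finset (ℤ × ℤ)) (k0 : Matrix (G → Fin d) (G → Fin d) ℂ) (hk0 : k0.IsHermitian)
    (hk : ∀ᶠ n in atTop, hamiltonian (n + 1) G k0 =
      U n * hamiltonian (n + 1) F (Matrix.diagonal (fun x => (h0 x : ℂ))) * (U n)ᴴ)
    (δ : ℝ) (hδ : 0 < δ) :
    ∃ lam > 0, ∀ k : Matrix (G → Fin d) (G → Fin d) ℂ, k.IsHermitian →
      (∀ a b, ‖k a b - k0 a b‖ ≤ lam) →
      ∃ ψ : ∀ n : ℕ, (Site (n + 1) → Fin d) → ℂ,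
        (∀ᶠ n in atTop, IsGappedGround (hamiltonian (n + 1) G k) (1 / 2) (ψ n)) ∧
        (∀ᶠ n in atTop, ∃ D : ℕ, (D : ℝ) ≤ ((n + 1 : ℕ) : ℝ) ^ δ ∧
          ∃ B : Site (n + 1) → Fin d → Fin D → Fin D → Fin D → Fin D → ℂ,
            √(∑ s, ‖sitePepsVec (n + 1) B s - ψ n s‖ ^ 2) ≤
              ((n + 1 : ℕ) : ℝ) ^ (-(1 / δ)) * √(∑ s, ‖ψ n s‖ ^ 2)) ∧
        ∀ R : Finset (ℤ × ℤ), ∃ C : ℝ, ∀ ε : ℝ, 0 < ε → ε ≤ 1 →
          ∃ D : ℕ, (D : ℝ) ≤ C * ε ^ (-(4 + δ)) ∧
          ∃ A : Fin d → Fin D → Fin D → Fin D → Fin D → ℂ,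
            (∀ᶠ n in atTop, pepsVec (n + 1) A ≠ 0) ∧
            ∀ᶠ n in atTop, ∀ v : Site (n + 1),
              traceNorm (reduced (n + 1) R v (ψ n) - reduced (n + 1) R v (pepsVec (n + 1) A)) ≤
                ε :=
  qca_main d F h0 hP U hU G k0 hk0 hk δ hδ

end Pool.Agent.Results.MP_0f69bf_mp.WeakPerturbations
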